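import Pool.Agent.H30.EV.Defs

/-! Adding a pair over a vector of a subspace which is fully divisible by pairs: auxiliary file. -/

set_option linter.unusedSectionVars false

open Module Submodule H15 H30.EV

namespace H9.EV

variable {ι : Type*} [Fintype ι] {E : Type*} [AddCommGroup E] [Module ℝ E]
  [FiniteDimensional ℝ E] {I : Type*} [Fintype I] {v : ι → E} {p q : I → ι} {α β : I → ℝ}
  {φ : I → (E →ₗ[ℝ] ℝ)} {k : ℕ}

open Classical in
/-- the coefficients of a combination of the vectors `zz`. -/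
private noncomputable def DD (p q : I → ι) (α β g : I → ℝ) (l : ι) : ℝ :=
  ∑ i, g i * ((if p i = l then α i else 0) + (if q i = l then β i else 0))

private theorem sum_DD (v : ι → E) (p q : I → ι) (α β g : I → ℝ) :
    ∑ l, DD p q α β g l • v l = ∑ i, g i • zz v p q α β i := by
  classical
  simp only [DD, Finset.sum_smul]
  rw [Finset.sum_comm]
  refine Finset.sum_congr rfl fun i _ => ?_
  simp only [zz, mul_smul, add_smul, ite_smul, zero_smul, smul_add, Finset.sum_add_distrib,
    smul_ite, smul_zero, Finset.sum_ite_eq, Finset.mem_univ, if_true]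

private theorem DD_p (hP : Pairs v p q α β φ) (g : I → ℝ) (i : I) :
    DD p q α β g (p i) = g i * α i := by
  classical
  unfold DD
  rw [Finset.sum_eq_single i]
  · rw [if_pos rfl, if_neg (fun h => hP.hpq i i h.symm), add_zero]
  · intro j _ hj
    rw [if_neg (fun h => hj (hP.hp h)), if_neg (fun h => hP.hpq i j h.symm)]
    simp
  · intro h; exact absurd (Finset.mem_univ _) h

private theorem DD_q (hP : Pairs v p q α β φ) (g : I → ℝ) (i : I) :
    DD p q α β g (q i) = g i * β i := by
  classical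
  unfold DD
  rw [Finset.sum_eq_single i]
  · rw [if_pos rfl, if_neg (fun h => hP.hpq i i h), zero_add]
  · intro j _ hj
    rw [if_neg (fun h => hP.hpq j i h), if_neg (fun h => hj (hP.hq h))]
    simp
  · intro h; exact absurd (Finset.mem_univ _) h

private theorem DD_zero (g : I → ℝ) {l : ι} (h1 : ∀ i, p i ≠ l) (h2 : ∀ i, q i ≠ l) :
    DD p q α β g l = 0 := by
  classical
  unfold DD
  refine Finset.sum_eq_zero fun i _ => ?_
  rw [if_neg (h1 i), if_neg (h2 i)]
  simp

/-- a dependency of the vectors `zz` gives one of `v`. -/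
theorem svec_of_zz (hP : Pairs v p q α β φ) {X Y : Set I} (h : SVec (zz v p q α β) X Y) :
    SVec v (p '' X ∪ q '' X) (p '' Y ∪ q '' Y) := by
  obtain ⟨c, h0, h1, h2⟩ := h
  have key : ∀ (Z : Set I) (P : ℝ → Prop), ¬ P 0 → (∀ a b, 0 < b → (P (a * b) ↔ P a)) →
      (∀ i, P (c i) ↔ i ∈ Z) → ∀ l, P (DD p q α β c l) ↔ l ∈ p '' Z ∪ q '' Z := by
    intro Z P hP0 hmul hZ l
    by_cases hp : ∃ i, p i = l
    · obtain ⟨i, rfl⟩ := hp
      rw [DD_p hP, hmul _ _ (hP.hα i), hZ]
      constructor
      · intro hi; exact Or.inl ⟨i, hi, rfl⟩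
      · rintro (⟨j, hj, hji⟩ | ⟨j, hj, hji⟩)
        · rw [← hP.hp hji]; exact hj
        · exact absurd hji.symm (hP.hpq i j)
    by_cases hq : ∃ i, q i = l
    · obtain ⟨i, rfl⟩ := hq
      rw [DD_q hP, hmul _ _ (hP.hβ i), hZ]
      constructor
      · intro hi; exact Or.inr ⟨i, hi, rfl⟩
      · rintro (⟨j, hj, hji⟩ | ⟨j, hj, hji⟩)
        · exact absurd hji (hP.hpq j i)
        · rw [← hP.hq hji]; exact hj
    · rw [DD_zero c (fun i h => hp ⟨i, h⟩) (fun i h => hq ⟨i, h⟩)]
      constructor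
      · intro h; exact absurd h hP0
      · rintro (⟨j, _, hji⟩ | ⟨j, _, hji⟩)
        · exact absurd ⟨j, hji⟩ hp
        · exact absurd ⟨j, hji⟩ hq
  refine ⟨DD p q α β c, ?_, ?_, ?_⟩
  · rw [sum_DD, h0]
  · exact key X (fun x => 0 < x) (lt_irrefl _) (fun a b hb => by
      constructor
      · intro h; exact (mul_pos_iff_of_pos_right hb).1 h
      · intro h; exact mul_pos h hb) h1
  · exact key Y (fun x => x < 0) (lt_irrefl _) (fun a b hb => by
      constructor
      · intro h; by_contra hcon; push Not at hcon; have := mul_nonneg hcon hb.le; linarith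
      · intro h; exact mul_neg_of_neg_of_pos h hb) h2

private theorem phi_zz (hP : Pairs v p q α β φ) (i j : I) : φ i (zz v p q α β j) = 0 := by
  unfold zz
  rw [map_add, map_smul, map_smul]
  by_cases h : j = i
  · subst h
    rw [hP.fp, hP.fq, smul_eq_mul, smul_eq_mul]
    ring
  · rw [hP.f0 i (p j) (fun h' => h (hP.hp h')) (hP.hpq j i),
      hP.f0 i (q j) (fun h' => hP.hpq i j h'.symm) (fun h' => h (hP.hq h'))]
    simp

private theorem phi_sum (hP : Pairs v p q α β φ) (i : I) (a : ι → ℝ) :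
    φ i (∑ l, a l • v l) = a (p i) * β i - a (q i) * α i := by
  classical
  have hne : p i ≠ q i := hP.hpq i i
  rw [map_sum]
  have h1 : ∀ l, φ i (a l • v l) = (if l = p i then a (p i) * β i else 0) +
      (if l = q i then -(a (q i) * α i) else 0) := by
    intro l
    rw [map_smul, smul_eq_mul]
    by_cases hp : l = p i
    · subst hp
      rw [if_pos rfl, if_neg hne, hP.fp, add_zero]
    · rw [if_neg hp]
      by_cases hq : l = q i
      · subst hq
        rw [if_pos rfl, hP.fq]
        ring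
      · rw [if_neg hq, hP.f0 i l hp hq]
        ring
  rw [Finset.sum_congr rfl fun l _ => h1 l, Finset.sum_add_distrib, Finset.sum_ite_eq',
    Finset.sum_ite_eq', if_pos (Finset.mem_univ _), if_pos (Finset.mem_univ _)]
  ring

private theorem side (hP : Pairs v p q α β φ) {F : Submodule ℝ E} {M : Set I}
    (hM : ∀ i ∈ M, zz v p q α β i ∈ F) (hφ : ∀ i, ∀ x ∈ F, φ i x = 0) {X0 Y0 : Set ι}
    (hd : Disjoint X0 Y0) (hX : ∀ i, p i ∈ X0 ↔ q i ∈ X0) {w : E}
    (hw1 : w ∈ sp v X0 ⊔ F) (hw2 : w ∈ sp v Y0 ⊔ F) :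
    w ∈ sp v (X0 \ (p '' M ∪ q '' M)) ⊔ F := by
  classical
  obtain ⟨x, hx, f, hf, rfl⟩ := Submodule.mem_sup.1 hw1
  obtain ⟨y, hy, f', hf', hyf⟩ := Submodule.mem_sup.1 hw2
  obtain ⟨a, ha, rfl⟩ := mem_sp_iff.1 hx
  obtain ⟨b, hb, rfl⟩ := mem_sp_iff.1 hy
  -- the coefficients of the pairs are proportional
  have hprop : ∀ i, a (q i) = a (p i) / α i * β i := by
    intro i
    by_cases hi : p i ∈ X0
    · have hqi : q i ∈ X0 := (hX i).1 hi
      have h1 : φ i (∑ l, a l • v l + f) = 0 := by
        rw [← hyf, map_add, hφ i f' hf', phi_sum hP, hb (p i) (Set.disjoint_left.1 hd hi),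
          hb (q i) (Set.disjoint_left.1 hd hqi)]
        ring
      rw [map_add, hφ i f hf, phi_sum hP] at h1
      have hα := (hP.hα i).ne'
      field_simp
      linarith
    · have hqi : q i ∉ X0 := fun h => hi ((hX i).2 h)
      rw [ha _ hi, ha _ hqi]
      ring
  let g : I → ℝ := fun i => if i ∈ M then a (p i) / α i else 0
  have hsum : ∑ l, a l • v l = ∑ l, (a l - DD p q α β g l) • v l + ∑ i, g i • zz v p q α β i := by
    rw [← sum_DD, ← Finset.sum_add_distrib]
    refine Finset.sum_congr rfl fun l _ => ?_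
    rw [← add_smul]
    congr 1
    ring
  rw [hsum, add_assoc]
  refine Submodule.add_mem_sup ?_ ?_
  · rw [mem_sp_iff]
    refine ⟨fun l => a l - DD p q α β g l, ?_, rfl⟩
    intro l hl
    change a l - DD p q α β g l = 0
    by_cases hp : ∃ i, p i = l
    · obtain ⟨i, rfl⟩ := hp
      rw [DD_p hP]
      by_cases hi : i ∈ M
      · have hα := (hP.hα i).ne'
        simp only [g, if_pos hi]
        field_simp
        ring
      · simp only [g, if_neg hi, zero_mul, sub_zero]
        refine ha _ fun hX0 => hl ⟨hX0, ?_⟩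
        rintro (⟨j, hj, hji⟩ | ⟨j, _, hji⟩)
        · exact hi (hP.hp hji ▸ hj)
        · exact hP.hpq i j hji.symm
    by_cases hq : ∃ i, q i = l
    · obtain ⟨i, rfl⟩ := hq
      rw [DD_q hP]
      by_cases hi : i ∈ M
      · simp only [g, if_pos hi]
        rw [hprop i]
        ring
      · simp only [g, if_neg hi, zero_mul, sub_zero]
        refine ha _ fun hX0 => hl ⟨hX0, ?_⟩
        rintro (⟨j, _, hji⟩ | ⟨j, hj, hji⟩)
        · exact hP.hpq j i hji
        · exact hi (hP.hq hji ▸ hj)
    · rw [DD_zero g (fun i h => hp ⟨i, h⟩) (fun i h => hq ⟨i, h⟩), sub_zero]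
      refine ha _ fun hX0 => hl ⟨hX0, ?_⟩
      rintro (⟨j, _, hji⟩ | ⟨j, _, hji⟩)
      · exact hp ⟨j, hji⟩
      · exact hq ⟨j, hji⟩
  · refine Submodule.add_mem _ (Submodule.sum_mem _ fun i _ => ?_) hf
    by_cases hi : i ∈ M
    · exact Submodule.smul_mem _ _ (hM i hi)
    · simp only [g, if_neg hi, zero_smul]
      exact zero_mem _

/-- **the new family is bounded.** -/
theorem bdd_dup (hP : Pairs v p q α β φ) (hb : Bdd v k) {F : Submodule ℝ E}
    (hF : FullyDiv (zz v p q α β) F) {z : E} (hz : z ∈ F) : Bdd (dup v z) k := by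
  classical
  obtain ⟨P, M, hPM, hPF, hMF⟩ := hF
  have hsv := svec_of_zz hP hPM
  have hφ : ∀ i, ∀ x ∈ F, φ i x = 0 := by
    intro i x hx
    have : F ≤ LinearMap.ker (φ i) := by
      rw [← hPF, sp_le]
      intro j _
      exact phi_zz hP i j
    exact this hx
  have hzP : ∀ i ∈ P, zz v p q α β i ∈ F := fun i hi => by rw [← hPF]; exact mem_sp hi
  have hzM : ∀ i ∈ M, zz v p q α β i ∈ F := fun i hi => by rw [← hMF]; exact mem_sp hi
  have hzz : ∀ (Z : Set I) (i : I), i ∈ Z → zz v p q α β i ∈ sp v (p '' Z ∪ q '' Z) := by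
    intro Z i hi
    refine Submodule.add_mem _ (Submodule.smul_mem _ _ (mem_sp (Or.inl ⟨i, hi, rfl⟩)))
      (Submodule.smul_mem _ _ (mem_sp (Or.inr ⟨i, hi, rfl⟩)))
  have hFP : F ≤ sp v (p '' P ∪ q '' P) := by
    rw [← hPF, sp_le]; exact fun i hi => hzz P i hi
  have hFM : F ≤ sp v (p '' M ∪ q '' M) := by
    rw [← hMF, sp_le]; exact fun i hi => hzz M i hi
  intro X' Y' hXY
  obtain ⟨c, h0, h1, h2⟩ := hXY
  set X0 : Set ι := {l | 0 < c (Sum.inl l)} with hX0
  set Y0 : Set ι := {l | c (Sum.inl l) < 0} with hY0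
  rw [Fintype.sum_sum_type] at h0
  simp only [dup, Sum.elim_inl, Sum.elim_inr, Fintype.sum_bool, if_true, Prod.smul_mk, smul_zero]
    at h0
  have h01 := congrArg Prod.fst h0
  have h02 := congrArg Prod.snd h0
  simp only [Prod.fst_add, Prod.snd_add, Prod.fst_sum, Prod.snd_sum, Prod.fst_zero,
    Prod.snd_zero, Finset.sum_const_zero, smul_eq_mul, mul_one, Bool.false_eq_true, if_false]
    at h01 h02
  have hab : c (Sum.inr true) = c (Sum.inr false) := by linarith
  set a := c (Sum.inr true) with ha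
  have hS : ∑ l, c (Sum.inl l) • v l = -(a • z) := by
    rw [eq_neg_iff_add_eq_zero, ← h01, ← hab, smul_smul, ← add_smul]
    congr 2
    ring
  have hSF : ∑ l, c (Sum.inl l) • v l ∈ F := by
    rw [hS]; exact Submodule.neg_mem _ (Submodule.smul_mem _ _ hz)
  have hpair : ∀ i, c (Sum.inl (p i)) * β i = c (Sum.inl (q i)) * α i := by
    intro i
    have := phi_sum hP i (fun l => c (Sum.inl l))
    rw [hφ i _ hSF] at this
    linarith
  have hXpq : ∀ i, p i ∈ X0 ↔ q i ∈ X0 := by
    intro i
    have e := hpair i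
    have hα := hP.hα i
    have hβ := hP.hβ i
    show 0 < c (Sum.inl (p i)) ↔ 0 < c (Sum.inl (q i))
    constructor
    · intro h
      have h3 : 0 < c (Sum.inl (q i)) * α i := by rw [← e]; exact mul_pos h hβ
      exact (mul_pos_iff_of_pos_right hα).1 h3
    · intro h
      have h3 : 0 < c (Sum.inl (p i)) * β i := by rw [e]; exact mul_pos h hα
      exact (mul_pos_iff_of_pos_right hβ).1 h3
  have hYpq : ∀ i, p i ∈ Y0 ↔ q i ∈ Y0 := by
    intro i
    have e := hpair i
    have hα := hP.hα i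
    have hβ := hP.hβ i
    show c (Sum.inl (p i)) < 0 ↔ c (Sum.inl (q i)) < 0
    constructor
    · intro h
      by_contra hcon
      push Not at hcon
      have h3 := mul_nonneg hcon hα.le
      have h4 := mul_neg_of_neg_of_pos h hβ
      linarith
    · intro h
      by_contra hcon
      push Not at hcon
      have h3 := mul_nonneg hcon hβ.le
      have h4 := mul_neg_of_neg_of_pos h hα
      linarith
  have hdis : Disjoint X0 Y0 := by
    rw [Set.disjoint_left]
    intro l hl hl'
    have h3 : 0 < c (Sum.inl l) := hl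
    have h4 : c (Sum.inl l) < 0 := hl'
    linarith
  have hext := hsv.ext (fun l => c (Sum.inl l)) (by
    refine sp_mono Set.subset_union_left (hFP hSF))
  have hbd := hb _ _ hext
  refine le_trans ?_ hbd
  -- projection to the first component
  have hX1 : ∀ w ∈ sp (dup v z) X', w.1 ∈ sp v X0 ⊔ F := by
    have : sp (dup v z) X' ≤ (sp v X0 ⊔ F).comap (LinearMap.fst ℝ E ℝ) := by
      rw [sp_le]
      rintro (l | b) hl
      · exact Submodule.mem_sup_left (mem_sp ((h1 _).2 hl))
      · exact Submodule.mem_sup_right (Submodule.smul_mem _ _ hz)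
    exact this
  have hY1 : ∀ w ∈ sp (dup v z) Y', w.1 ∈ sp v Y0 ⊔ F := by
    have : sp (dup v z) Y' ≤ (sp v Y0 ⊔ F).comap (LinearMap.fst ℝ E ℝ) := by
      rw [sp_le]
      rintro (l | b) hl
      · exact Submodule.mem_sup_left (mem_sp ((h2 _).2 hl))
      · exact Submodule.mem_sup_right (Submodule.smul_mem _ _ hz)
    exact this
  have hsnd : ∀ w ∈ LL (dup v z) X' Y', w.2 = 0 := by
    intro w hw
    have hcb : ∀ b, c (Sum.inr b) = a := by
      intro b; cases b
      · exact hab.symm
      · rfl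
    rcases le_or_gt 0 a with h | h
    · have : sp (dup v z) Y' ≤ LinearMap.ker (LinearMap.snd ℝ E ℝ) := by
        rw [sp_le]
        rintro (l | b) hl
        · rfl
        · have := (h2 _).2 hl
          rw [hcb b] at this
          exact absurd this (not_lt.2 h)
      exact this hw.2
    · have : sp (dup v z) X' ≤ LinearMap.ker (LinearMap.snd ℝ E ℝ) := by
        rw [sp_le]
        rintro (l | b) hl
        · rfl
        · have := (h1 _).2 hl
          rw [hcb b] at this
          exact absurd this (not_lt.2 h.le)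
      exact this hw.1
  have hfst : ∀ w ∈ LL (dup v z) X' Y', w.1 ∈ LL v (p '' P ∪ q '' P ∪ {i | 0 < c (Sum.inl i) ∧
      i ∉ p '' M ∪ q '' M}) (p '' M ∪ q '' M ∪ {i | c (Sum.inl i) < 0 ∧
      i ∉ p '' P ∪ q '' P}) := by
    intro w hw
    have hw1 := hX1 w hw.1
    have hw2 := hY1 w hw.2
    constructor
    · have h3 := side hP hzM hφ hdis hXpq hw1 hw2
      rw [sp_union]
      refine (sup_le ?_ ?_ : sp v (X0 \ (p '' M ∪ q '' M)) ⊔ F ≤ _) h3
      · exact le_sup_of_le_right le_rfl
      · exact le_sup_of_le_left hFP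
    · have h3 := side hP hzP hφ hdis.symm hYpq hw2 hw1
      rw [sp_union]
      refine (sup_le ?_ ?_ : sp v (Y0 \ (p '' P ∪ q '' P)) ⊔ F ≤ _) h3
      · exact le_sup_of_le_right le_rfl
      · exact le_sup_of_le_left hFM
  refine LinearMap.finrank_le_finrank_of_injective
    (f := LinearMap.codRestrict _ ((LinearMap.fst ℝ E ℝ).domRestrict (LL (dup v z) X' Y'))
      (fun w => hfst w.1 w.2)) ?_
  intro w w' hww
  have h3 : w.1.1 = w'.1.1 := congrArg Subtype.val hww
  apply Subtype.ext
  apply Prod.ext h3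
  rw [hsnd w.1 w.2, hsnd w'.1 w'.2]

end H9.EV
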